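import Pool.Agent.Helper59.MB.Goals1

/-! Project MB (MP_49a1ce_an), packet MB-INV (helper79): the aligned blocks of level `k + 1 ≤ K` of
`Phi K w` are good. -/

set_option autoImplicit false

open MeasureTheory Filter Topology

namespace Pool.Agent.Helper79.MB

open Pool.Agent.Helper59.MB

lemma P_pos (s : ℕ → ℕ) (k : ℕ) : 0 < P s k := by
  unfold P
  positivity

lemma half_good {s : ℕ → ℕ} {V : ℕ → Set (ℕ → ℝ)} {m : Measure A} [IsProbabilityMeasure m]
    {K : ℕ} {w : Wd} (h : HGood s V m K w) : Good s V m K w := by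
  intro l hl i₁ i₂ h1 h2 v hv
  refine (h l hl i₁ i₂ h1 h2 v hv).trans ?_
  have hP : (0 : ℝ) < P s (K + 1) := by exact_mod_cast P_pos s (K + 1)
  have hK : (0 : ℝ) < (K : ℝ) + 1 := by positivity
  apply mul_le_mul_of_nonneg_right _ hP.le
  apply one_div_le_one_div_of_le hK
  linarith

lemma exists_hgood {s : ℕ → ℕ} {V : ℕ → Set (ℕ → ℝ)} {m : Measure A} [IsProbabilityMeasure m]
    {K : ℕ} (h : Adm s V m K) : ∃ w : Wd, HGood s V m K (cat s K (Phi s V m K) w) := by
  by_contra hcon
  push Not at hcon
  have h1 := h.1
  have huniv : {w : Wd | ¬ HGood s V m K (cat s K (Phi s V m K) w)} = Set.univ := by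
    ext w
    simp [hcon w]
  have hQ : IsProbabilityMeasure (Q m) := by
    unfold Q
    infer_instance
  rw [huniv, probReal_univ] at h1
  have hP : (1 : ℝ) ≤ P s (K + 1) := by exact_mod_cast P_pos s (K + 1)
  have h2 : ((1 : ℝ) / 2) ^ (K + 2) / P s (K + 1) ≤ (1 / 2) ^ (K + 2) :=
    div_le_self (by positivity) hP
  have h3 : ((1 : ℝ) / 2) ^ (K + 2) < 1 := pow_lt_one₀ (by norm_num) (by norm_num) (by omega)
  linarith

/-- the map `Phi (K + 1)` agrees in the digits `< K + 1` with a good word `cat K (Phi K) u` -/
lemma exists_u {s : ℕ → ℕ} {V : ℕ → Set (ℕ → ℝ)} {m : Measure A} [IsProbabilityMeasure m]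
    {K : ℕ} (h : Adm s V m K) (w : Wd) : ∃ u : Wd, Good s V m K (cat s K (Phi s V m K) u) ∧
      ∀ i, ∀ j < K + 1, Phi s V m (K + 1) w i j = cat s K (Phi s V m K) u i j := by
  classical
  by_cases hg : Good s V m K (cat s K (Phi s V m K) w)
  · refine ⟨w, hg, fun i j _ => ?_⟩
    have : Phi s V m (K + 1) w = cat s K (Phi s V m K) w := by
      change nxt s V m K (Phi s V m K) w = _
      unfold nxt
      exact if_pos hg
    rw [this]
  · refine ⟨Classical.epsilon fun w : Wd =>
      GoodW s V K (1 / (2 * (K + 1))) (mean s m (Phi s V m K)) (cat s K (Phi s V m K) w),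
      half_good (Classical.epsilon_spec (exists_hgood h)), fun i j hj => ?_⟩
    have : Phi s V m (K + 1) w = fun i j => if j < K + 1 then gw s V m K (Phi s V m K) i j
        else cat s K (Phi s V m K) w i j := by
      change nxt s V m K (Phi s V m K) w = _
      unfold nxt
      exact if_neg hg
    rw [this]
    simp only [hj, if_true]
    rfl

theorem t_INV (hLOP : S_LOP) : S_INV := by
  intro s V m _ K
  induction K with
  | zero =>
    intro _ w k q hk
    omega
  | succ K ih =>
    intro hPar w k q hk hq
    have hParK : Par s V m K :=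
      ⟨hPar.mono, hPar.fin, hPar.one, hPar.le, fun k hk => hPar.adm k (by omega)⟩
    have hL := hLOP s V m hPar.mono
    obtain ⟨u, hu, hdig⟩ := exists_u (hPar.adm K (by omega)) w
    rcases Nat.lt_succ_iff_lt_or_eq.1 hk with hlt | rfl
    · -- the block lies in one block of level `K`
      have hle : s (k + 1) ≤ s K := hPar.mono.monotone (by omega)
      obtain ⟨M, hM⟩ : ∃ M, P s K = P s (k + 1) * M := by
        refine ⟨2 ^ (s K - s (k + 1)), ?_⟩
        unfold P
        rw [← pow_add]
        congr 1
        omega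
      have hPK := P_pos s K
      have hPk := P_pos s (k + 1)
      have hMpos : 0 < M := by
        rcases Nat.eq_zero_or_pos M with h0 | h0
        · rw [h0, mul_zero] at hM
          omega
        · exact h0
      have hr : q % M + 1 ≤ M := Nat.mod_lt q hMpos
      have hih := ih hParK (from' (P s K * (q / M)) u) k (q % M) hlt
        (by rw [hM]; exact Nat.mul_le_mul_left _ hr)
      refine ((hL.1 k _ _ _ _ ?_).1 hih)
      intro a ha j hj
      have hqe : P s (k + 1) * q + a = P s K * (q / M) + (P s (k + 1) * (q % M) + a) := by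
        have h1 : q = M * (q / M) + q % M := (Nat.div_add_mod q M).symm
        calc P s (k + 1) * q + a = P s (k + 1) * (M * (q / M) + q % M) + a := by rw [← h1]
          _ = P s K * (q / M) + (P s (k + 1) * (q % M) + a) := by rw [hM]; ring
      have hlt2 : P s (k + 1) * (q % M) + a < P s K := by
        have h2 : P s (k + 1) * (q % M + 1) ≤ P s (k + 1) * M := Nat.mul_le_mul_left _ hr
        rw [hM]
        rw [mul_add, mul_one] at h2
        omega
      have hdiv : (P s (k + 1) * q + a) / P s K = q / M := by
        rw [hqe, Nat.mul_add_div hPK, Nat.div_eq_of_lt hlt2, add_zero]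
      have hmod : (P s (k + 1) * q + a) % P s K = P s (k + 1) * (q % M) + a := by
        rw [hqe, Nat.mul_add_mod, Nat.mod_eq_of_lt hlt2]
      change Phi s V m K (from' (P s K * (q / M)) u) (P s (k + 1) * (q % M) + a) j =
        Phi s V m (K + 1) w (P s (k + 1) * q + a) j
      rw [hdig _ j (by omega)]
      change _ = Phi s V m K (from' (P s K * ((P s (k + 1) * q + a) / P s K)) u)
        ((P s (k + 1) * q + a) % P s K) j
      rw [hdiv, hmod]
    · -- the whole block
      have hPk := P_pos s (k + 1)
      have hq0 : q = 0 := by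
        by_contra hne
        have h2 : P s (k + 1) * 2 ≤ P s (k + 1) * (q + 1) := Nat.mul_le_mul_left _ (by omega)
        omega
      subst hq0
      refine (hL.1 k _ _ _ _ ?_).1 hu
      intro a ha j hj
      change cat s k (Phi s V m k) u a j = Phi s V m (k + 1) w (P s (k + 1) * 0 + a) j
      rw [hdig _ j (by omega), mul_zero, zero_add]

end Pool.Agent.Helper79.MB
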